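import Pool.Agent.Lib.MP_305fdd_al.To.Asm.Inp
import Pool.Agent.Lib.MP_305fdd_al.To.T1.Inf
import Pool.Agent.Lib.MP_305fdd_al.To.F.Lit

/-!
# MP_305fdd_al, cocompact Fuchsian groups: THE THEOREM

`rigid_R`: a discrete cocompact subgroup of `PSL(2, ℝ)` is profinitely rigid.
-/

set_option autoImplicit false

namespace Pool.Agent.ToAsm

open Pool.Agent.Lib.MP_305fdd_al Pool.Agent.MP_305fdd_al Pool.Agent.ToST

/-- **THE THEOREM**: discrete cocompact subgroups of `PSL(2, ℝ)` are profinitely rigid -/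
theorem rigid_R {Δ : Type} [Group Δ] (R : Δ →* ToN.PSLR) (hd : ToN.Disc R) (hc : ToN.Coc R) :
    ProfinitelyRigid Δ := by
  obtain ⟨L⟩ := Lat.of_disc_coc R hd.inj hd hc
  exact rigid_lat' p_cen p_real L fun H _ x => ToT1.inf hd hc H x

/-- the interface of the literal end -/
theorem p_CO : ToF.S_CO := fun _ _ R _ hd hc => rigid_R R hd hc

end Pool.Agent.ToAsm
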