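import Pool.Agent.Lib.MP_305fdd_al.To.Asm.Main
import Pool.Agent.Lib.MP_305fdd_al.To.NR.Main
import Pool.Agent.Lib.MP_305fdd_al.To.T1.Cen

/-!
# MP_305fdd_al, cocompact Fuchsian groups: two inputs of the assembly
-/

set_option autoImplicit false

namespace Pool.Agent.ToAsm

open Pool.Agent.Su

/-- the centraliser -/
theorem p_cen : S_cen := fun _ _ _ _ L Φ _ N _ _ _ hh e c hc => ToT1.t1 L Φ N hh e c hc

/-- Nielsen realisation -/
theorem p_real : S_real := fun _ hg _ _ _ _ _ e h1 h2 => ToNR.nielsen hg e h1 h2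

end Pool.Agent.ToAsm
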