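import Pool.Agent.Lib.MP_305fdd_al.To.T.Ori
import Pool.Agent.Lib.MP_305fdd_al.To.NR.M2
import Pool.Agent.Lib.MP_305fdd_al.To.ST.PSLDisc
import Pool.Agent.Lib.MP_305fdd_al.Su.Sig.Main

/-!
# MP_305fdd_al, cocompact Fuchsian groups: THE ASSEMBLY

`rigid_lat`: a cocompact lattice of `PSL(2, ℝ)` is profinitely rigid, from three interface statements.
-/

set_option autoImplicit false

namespace Pool.Agent.ToAsm

open Pool.Agent.Su Pool.Agent.Lib.MP_305fdd_al Pool.Agent.MP_305fdd_al Pool.Agent.ToT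
  Pool.Agent.ToST

/-- elements of infinite order in cosets -/
def S_inf : Prop :=
  ∀ (Δ : Type) [Group Δ] (_ : Lat Δ) (H : Subgroup Δ), H.FiniteIndex → ∀ x : Δ, ∃ y ∈ H,
    ∀ n : ℕ, 0 < n → (x * y) ^ n ≠ 1

/-- the centraliser -/
def S_cen : Prop :=
  ∀ (Λ Δ : Type) [Group Λ] [Group Δ] (_ : Lat Δ) (_ : NatBij Λ Δ), Group.FG Λ →
    ∀ (N : Subgroup Λ) [N.Normal] [N.FiniteIndex] (h : ℕ), 2 ≤ h → (SurfaceGroup h ≃* N) →
      ∀ c : Λ, (∀ n ∈ N, c * n = n * c) → c = 1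

/-- Nielsen realisation -/
def S_real : Prop :=
  ∀ (g : ℕ), 2 ≤ g → ∀ (Λ : Type) [Group Λ] (N : Subgroup Λ) [N.Normal] [N.FiniteIndex]
    (e : SurfaceGroup g ≃* N), (∀ l : Λ, IsDeg (ToNR.cj e l).toMonoidHom 1) →
      (∀ l : Λ, (∀ n ∈ N, l * n = n * l) → l = 1) →
        ∃ R : Λ →* ToN.PSLR, Function.Injective R ∧ ToN.Disc R ∧ ToN.Coc R

/-- **THE THEOREM** from the interface statements, for one lattice -/
theorem rigid_lat' (hc : S_cen) (hr : S_real) {Δ : Type} [Group Δ] (L : Lat Δ)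
    (hinf : ∀ H : Subgroup Δ, H.FiniteIndex → ∀ x : Δ, ∃ y ∈ H, ∀ n : ℕ, 0 < n → (x * y) ^ n ≠ 1) :
    ProfinitelyRigid Δ := by
  intro Λ _ hΛ
  obtain ⟨hfg, hrf, hs⟩ := hΛ
  have hfgΔ : Group.FG Δ := ToVT.fg L
  have hrfΔ : Group.ResiduallyFinite Δ := ToVT.rf L
  obtain ⟨Φ⟩ := exists_natBij hs.symm
  -- the surface group in `Δ`
  obtain ⟨N₀, hNn, hNf, hN₀⟩ := ToVT.exists_tf L
  obtain ⟨g, hg, ⟨e₀⟩⟩ := ToVT.surf L N₀ hN₀
  -- the surface group in `Λ`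
  let π : Δ →* Δ ⧸ N₀ := QuotientGroup.mk' N₀
  have hπ : Function.Surjective π := QuotientGroup.mk'_surjective N₀
  obtain ⟨π', hπ'⟩ : ∃ π' : Λ →* Δ ⧸ N₀, Φ.toFun (Δ ⧸ N₀) π = π' := ⟨_, rfl⟩
  obtain ⟨e⟩ := tr_surf Φ hfg hrf π hπ N₀ hNf (le_of_eq (QuotientGroup.ker_mk' N₀)) e₀
  have hker : (N₀.map π).comap (Φ.toFun (Δ ⧸ N₀) π) = π'.ker := by
    rw [hπ']
    have : N₀.map π = ⊥ := by
      rw [eq_bot_iff]
      rintro _ ⟨z, hz, rfl⟩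
      exact (QuotientGroup.eq_one_iff z).2 hz
    rw [this, MonoidHom.comap_bot]
  rw [hker] at e
  have hfi : π'.ker.FiniteIndex := Subgroup.finiteIndex_ker π'
  -- orientation and centraliser
  have h1 : ∀ l : Λ, IsDeg (ToNR.cj e l).toMonoidHom 1 := fun l =>
    ori L hinf Φ hfg hrf N₀ hN₀ π' hπ' (by omega) e l
  have h2 : ∀ l : Λ, (∀ n ∈ π'.ker, l * n = n * l) → l = 1 := hc Λ Δ L Φ.symm hfg π'.ker g hg e
  -- `Λ` is a lattice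
  obtain ⟨R, hR, hd, hcc⟩ := hr g hg Λ π'.ker e h1 h2
  obtain ⟨L'⟩ := Lat.of_disc_coc R hR hd hcc
  -- the signatures
  obtain ⟨g₁, k₁, m₁, hm₁, f₁, ho₁⟩ := L'.structure_theorem
  obtain ⟨g₂, k₂, m₂, hm₂, f₂, ho₂⟩ := L.structure_theorem
  exact Sg.inv_iso f₁ f₂ hrf hrfΔ hm₁ hm₂ ho₁ ho₂ hs

/-- **THE THEOREM** from the interface statements -/
theorem rigid_lat (hi : S_inf) (hc : S_cen) (hr : S_real) {Δ : Type} [Group Δ] (L : Lat Δ) :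
    ProfinitelyRigid Δ := rigid_lat' hc hr L fun H hH x => hi Δ L H hH x

end Pool.Agent.ToAsm
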